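import Pool.Agent.Lib.MP_b33ea7_lc.Free
import Pool.Agent.Lib.MP_b33ea7_lc.Tree

/-!
Exact threshold: over Turing ideals, a family of thin set and free set principles yields weak
weak König's lemma exactly when it yields arithmetical comprehension, exactly when one of its
finite colour bounds is below the Catalan number of its arity.
-/

namespace Pool.Agent.Results.MP_b33ea7_lc.CatalanThreshold

open Pool.Agent.Lib.MP_b33ea7_lc Pool.Agent.Shared.Oracle

theorem rt_mono {I : Set (ℕ → Bool)} {n ℓ ℓ' : ℕ} (h : RT I n ℓ) (hl : ℓ ≤ ℓ') : RT I n ℓ' :=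
  fun k f h1 h2 =>
    let ⟨H, a, b, J, c, d⟩ := h k f h1 h2
    ⟨H, a, b, J, c.trans hl, d⟩

theorem ts_of_rt {I : Set (ℕ → Bool)} {n ℓ : ℕ} (h : RT I n ℓ) : TS I n := by
  rintro f ⟨Z, hZ, hf⟩
  obtain ⟨H, a, b, J, c, d⟩ := h (ℓ + 2) (fun l => min (f l) (ℓ + 1))
    ⟨Z, hZ, cin_comp (f := fun x => min x (ℓ + 1))
      (Primrec.nat_min.comp Primrec.id (Primrec.const _)).to_comp.computableIn hf⟩
    fun l => by omega
  obtain ⟨x, x1, x2⟩ := Finset.exists_mem_notMem_of_card_lt_card (s := J)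
    (t := Finset.range (ℓ + 1)) (by simp; omega)
  refine ⟨H, a, b, x, fun l h1 h2 h3 e => x2 ?_⟩
  have := d l h1 h2 h3
  rwa [e, min_eq_left (by simp at x1; omega)] at this

theorem result (A : Set (ℕ × ℕ)) (B C : Set ℕ) : List.TFAE
    [∀ I, IsIdeal I → (∀ p ∈ A, RT I (p.1 + 1) p.2) → (∀ n ∈ B, TS I (n + 1)) →
      (∀ n ∈ C, FS I n) → ACA I,
     ∀ I, IsIdeal I → (∀ p ∈ A, RT I (p.1 + 1) p.2) → (∀ n ∈ B, TS I (n + 1)) →
      (∀ n ∈ C, FS I n) → WKL I,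
     ∀ I, IsIdeal I → (∀ p ∈ A, RT I (p.1 + 1) p.2) → (∀ n ∈ B, TS I (n + 1)) →
      (∀ n ∈ C, FS I n) → WWKL I,
     ∃ p ∈ A, p.2 < catalan p.1] := by
  tfae_have 1 → 2 := fun h I a b c d => wkl_of_aca a (h I a b c d)
  tfae_have 2 → 3 := fun h I a b c d => wwkl_of_wkl (h I a b c d)
  tfae_have 3 → 4 := by
    intro h
    by_contra hc
    push Not at hc
    obtain ⟨I, h1, h2, h3⟩ := exists_model good_emp
    have hW : ¬ WWKL I := fun hW => by
      obtain ⟨Z, hZ⟩ := h1.nonempty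
      obtain ⟨X, a, b⟩ := hW tree ⟨Z, hZ, c_tree.computableIn⟩ isTree_tree ⟨2, level_tree⟩
      exact not_good_of_path b (h3 X a)
    exact hW (h I h1 (fun p hp => rt_mono (h2 _) (hc p hp)) (fun n _ => ts_of_rt (h2 n))
      fun n _ => fs_of_rt h1 (h2 n) fun hA => hW (wwkl_of_wkl (wkl_of_aca h1 hA)))
  tfae_have 4 → 1 := fun ⟨p, hp, hl⟩ I a b _ _ => aca_of_rt a hl (b p hp)
  tfae_finish

end Pool.Agent.Results.MP_b33ea7_lc.CatalanThreshold
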