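import Pool.Agent.FS.ProgFree.Main

/-!
Over Turing ideals, the progressive free set theorem for sets whose size is bounded by a function
of the least element (such as exactly large sets), together with the free set and thin set
principles, does not yield weak weak König's lemma.
-/

namespace Pool.Agent.Results.MP_b33ea7_lc.ProgressiveFree

open Pool.Agent.Lib.MP_b33ea7_lc Pool.Agent.FS.ProgFree Pool.Agent.Shared.Oracle

theorem result : ∃ I, IsIdeal I ∧ PFS I ∧ (∀ n, FS I n) ∧ (∀ n, TS I (n + 1)) ∧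
    ¬ WWKL I ∧ ¬ WKL I := by
  obtain ⟨I, h1, h2, h3, h4⟩ := exists_model_fp
  have hW : ¬ WWKL I := fun hW => by
    obtain ⟨Z, hZ⟩ := h1.nonempty
    obtain ⟨X, a, b⟩ := hW tree ⟨Z, hZ, c_tree.computableIn⟩ isTree_tree ⟨2, level_tree⟩
    exact not_good_of_path b (h4 X a)
  exact ⟨I, h1, h3, fun n => fs_of_rt h1 (h2 n) fun hA => hW (wwkl_of_wkl (wkl_of_aca h1 hA)),
    fun n => Pool.Agent.FS.SchreierRainbow.ts_of_rt' (h2 n), hW, fun h => hW (wwkl_of_wkl h)⟩

end Pool.Agent.Results.MP_b33ea7_lc.ProgressiveFree
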