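import Pool.Agent.Lib.MP_b33ea7_lc.Like
import Pool.Agent.Lib.MP_b33ea7_lc.Tree

/-!
Dichotomy: over Turing ideals, a family of Ramsey-like statements with a promise yields weak weak
König's lemma exactly when it yields arithmetical comprehension, exactly when one of its members
meets a combinatorial criterion on shapes.
-/

namespace Pool.Agent.Results.MP_b33ea7_lc.RamseyLike

open Pool.Agent.Lib.MP_b33ea7_lc Pool.Agent.Shared.Oracle

theorem result (F : Set (ℕ × ℕ × Set Pattern × Set Pattern)) : List.TFAE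
    [∀ I, IsIdeal I → (∀ q ∈ F, RL I (q.1 + 1) q.2.1 q.2.2.1 q.2.2.2) → ACA I,
     ∀ I, IsIdeal I → (∀ q ∈ F, RL I (q.1 + 1) q.2.1 q.2.2.1 q.2.2.2) → WKL I,
     ∀ I, IsIdeal I → (∀ q ∈ F, RL I (q.1 + 1) q.2.1 q.2.2.1 q.2.2.2) → WWKL I,
     ∃ q ∈ F, Crit (q.1 + 1) q.2.1 q.2.2.1 q.2.2.2] := by
  tfae_have 1 → 2 := fun h I a b => wkl_of_aca a (h I a b)
  tfae_have 2 → 3 := fun h I a b => wwkl_of_wkl (h I a b)
  tfae_have 3 → 4 := by
    intro h
    by_contra hc
    push Not at hc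
    obtain ⟨I, h1, h2, h3⟩ := exists_model good_emp
    have hW : ¬ WWKL I := fun hW => by
      obtain ⟨Z, hZ⟩ := h1.nonempty
      obtain ⟨X, a, b⟩ := hW tree ⟨Z, hZ, c_tree.computableIn⟩ isTree_tree ⟨2, level_tree⟩
      exact not_good_of_path b (h3 X a)
    exact hW (h I h1 fun q hq => rl_of_not_crit h1
      (fun hA => hW (wwkl_of_wkl (wkl_of_aca h1 hA))) (hc q hq) (h2 _))
  tfae_have 4 → 1 := fun ⟨q, hq, hl⟩ I a b => aca_of_crit a (b q hq) hl
  tfae_finish

end Pool.Agent.Results.MP_b33ea7_lc.RamseyLike
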