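import Pool.Agent.FS.SchreierRainbow.Main
import Pool.Agent.Lib.MP_b33ea7_lc.Tree

/-!
Exact threshold: over Turing ideals, the rainbow Ramsey theorem for a family of barriers
`Bar j h` yields arithmetical comprehension exactly when some member has `1 ≤ j` and `h` unbounded;
otherwise it does not yield weak weak König's lemma, even with the free set and thin set principles
and the rainbow Ramsey theorem for all short families (such as the Schreier barrier).
-/

namespace Pool.Agent.Results.MP_b33ea7_lc.SchreierRainbow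

open Pool.Agent.Lib.MP_b33ea7_lc Pool.Agent.FS.SchreierRainbow Pool.Agent.Shared.Oracle

theorem result (F : Set (ℕ × (ℕ → ℕ))) (hF : ∀ q ∈ F, Computable q.2 ∧ Monotone q.2) : List.TFAE
    [∀ I, IsIdeal I → (∀ q ∈ F, RRT I (Bar q.1 q.2) 2) → ACA I,
     ∀ I, IsIdeal I → (∀ n, FS I n) → (∀ n, TS I (n + 1)) → (∀ B k, Short I B → RRT I B k) →
      (∀ q ∈ F, ∀ k, RRT I (Bar q.1 q.2) k) → WKL I,
     ∀ I, IsIdeal I → (∀ n, FS I n) → (∀ n, TS I (n + 1)) → (∀ B k, Short I B → RRT I B k) →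
      (∀ q ∈ F, ∀ k, RRT I (Bar q.1 q.2) k) → WWKL I,
     ∃ q ∈ F, 1 ≤ q.1 ∧ ∀ n, ∃ a, n ≤ q.2 a] := by
  tfae_have 1 → 2 := fun h I a _ _ _ e => wkl_of_aca a (h I a fun q hq => e q hq 2)
  tfae_have 2 → 3 := fun h I a b c d e => wwkl_of_wkl (h I a b c d e)
  tfae_have 3 → 4 := by
    intro h
    by_contra hc
    obtain ⟨I, h1, h2, h3, h4⟩ := exists_model_rb good_emp
    have hW : ¬ WWKL I := fun hW => by
      obtain ⟨Z, hZ⟩ := h1.nonempty
      obtain ⟨X, a, b⟩ := hW tree ⟨Z, hZ, c_tree.computableIn⟩ isTree_tree ⟨2, level_tree⟩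
      exact not_good_of_path b (h4 X a)
    exact hW (h I h1
      (fun n => fs_of_rt h1 (h2 n) fun hA => hW (wwkl_of_wkl (wkl_of_aca h1 hA)))
      (fun n => ts_of_rt' (h2 n)) h3 fun q hq k =>
        h3 _ k (short_bar h1 (hF q hq).1 (hF q hq).2 fun e => hc ⟨q, hq, e⟩))
  tfae_have 4 → 1 := by
    rintro ⟨⟨_ | j, g⟩, hq, h1, h2⟩ I a b
    · simp at h1
    · exact aca_of_bar a (hF _ hq).2 h2 (b _ hq)
  tfae_finish

end Pool.Agent.Results.MP_b33ea7_lc.SchreierRainbow
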